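import Pool.Agent.KK.StmtsE

/-! Squad KK, row E_GRO (StmtE09): growth of an up-set. -/

set_option autoImplicit false

namespace Pool.Agent.KK.E.H8

open Pool.Agent.KK Pool.Agent.KK.E

/-- additivity of the density -/
theorem dens_diff {V : Type} [Fintype V] {ι : Type} [Fintype ι] (c : ι → Finset V)
    (P Q : (ι → V) → Prop) (h : ∀ f, Q f → P f) :
    dens c (fun f => P f ∧ ¬ Q f) + dens c Q = dens c P := by
  unfold dens
  rw [← add_div, ← Nat.cast_add, ← Set.ncard_union_eq]
  · have : {f : ι → V | (∀ i, f i ∈ c i) ∧ P f ∧ ¬ Q f} ∪ {f : ι → V | (∀ i, f i ∈ c i) ∧ Q f} =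
        {f : ι → V | (∀ i, f i ∈ c i) ∧ P f} := by
      ext f
      constructor
      · rintro (⟨h1, h2, -⟩ | ⟨h1, h2⟩)
        · exact ⟨h1, h2⟩
        · exact ⟨h1, h f h2⟩
      · rintro ⟨h1, h2⟩
        by_cases hq : Q f
        · exact Or.inr ⟨h1, hq⟩
        · exact Or.inl ⟨h1, h2, hq⟩
    rw [this]
  · rw [Set.disjoint_left]
    rintro f ⟨-, -, h2⟩ ⟨-, h4⟩
    exact h2 h4

theorem e_gro (hE01 : StmtE01) (hE02 : StmtE02) (hE08 : StmtE08) : StmtE09 := by
  classical
  intro V _ _ X U j hX hU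
  set A : (Fin (j + 1) → V) → Prop := fun f => U (Finset.univ.image f) with hA
  obtain ⟨-, hmono, -, hcomp, -, -⟩ := hE01 V (Fin (j + 1)) (fun _ => X) (fun _ => hX)
  have h8 := hE08 V (Fin (j + 1)) (fun _ => X) A (fun f => ¬ A f) (fun _ => hX)
    (fun f h h' => h' h)
  have hB : dens (fun _ : Fin (j + 1) => X) (fun f => ¬ A f) =
      1 - dens (fun _ : Fin (j + 1) => X) A := by
    have := hcomp A
    linarith
  have h0 : dens (fun _ : Fin (j + 1) => X) (fun f => ¬ A f ∧ ¬ ¬ A f) = 0 := by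
    unfold dens
    have : {f : Fin (j + 1) → V | (∀ i, f i ∈ X) ∧ ¬ A f ∧ ¬ ¬ A f} = ∅ := by
      ext f
      simp only [Set.mem_empty_iff_false, iff_false]
      rintro ⟨-, h1, h2⟩
      exact h2 h1
    rw [this]
    simp
  rw [hB, h0, mul_zero, add_zero] at h8
  refine h8.trans ?_
  have hterm : ∀ i : Fin (j + 1),
      dens (Sum.elim (fun _ : Fin (j + 1) => X) (fun _ : Unit => X))
        (fun g => A (g ∘ Sum.inl) ∧
          ¬ A (Function.update (g ∘ Sum.inl) i (g (Sum.inr ())))) ≤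
      dens (fun _ : Fin (j + 1) => X) A -
        dens (fun _ : Fin j => X) (fun f => U (Finset.univ.image f)) := by
    intro i
    have hne : ∀ x : Fin (j + 1) ⊕ Unit,
        (Sum.elim (fun _ : Fin (j + 1) => X) (fun _ : Unit => X) x).Nonempty := by
      rintro (x | x)
      · exact hX
      · exact hX
    obtain ⟨-, hmono', -, -, -, -⟩ := hE01 V (Fin (j + 1) ⊕ Unit)
      (Sum.elim (fun _ : Fin (j + 1) => X) (fun _ : Unit => X)) hne
    have e1 := hE02 V (Fin (j + 1) ⊕ Unit) (Fin (j + 1))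
      (Sum.elim (fun _ : Fin (j + 1) => X) (fun _ : Unit => X)) Sum.inl hne Sum.inl_injective A
    have e2 := hE02 V (Fin (j + 1) ⊕ Unit) (Fin j)
      (Sum.elim (fun _ : Fin (j + 1) => X) (fun _ : Unit => X)) (fun x => Sum.inl (i.succAbove x))
      hne (Sum.inl_injective.comp Fin.succAbove_right_injective)
      (fun f => U (Finset.univ.image f))
    have c1 : (Sum.elim (fun _ : Fin (j + 1) => X) (fun _ : Unit => X)) ∘
        (Sum.inl : Fin (j + 1) → Fin (j + 1) ⊕ Unit) = fun _ => X := rfl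
    have c2 : (Sum.elim (fun _ : Fin (j + 1) => X) (fun _ : Unit => X)) ∘
        (fun x : Fin j => (Sum.inl (i.succAbove x) : Fin (j + 1) ⊕ Unit)) = fun _ => X := rfl
    rw [c1] at e1
    rw [c2] at e2
    have h1 := dens_diff (Sum.elim (fun _ : Fin (j + 1) => X) (fun _ : Unit => X))
      (fun g => A (g ∘ Sum.inl))
      (fun g => U (Finset.univ.image (g ∘ fun x : Fin j =>
        (Sum.inl (i.succAbove x) : Fin (j + 1) ⊕ Unit)))) (by
        intro g hg
        refine hU _ _ ?_ hg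
        intro v hv
        obtain ⟨x, -, rfl⟩ := Finset.mem_image.1 hv
        exact Finset.mem_image.2 ⟨i.succAbove x, Finset.mem_univ _, rfl⟩)
    rw [e1, e2] at h1
    have h2 := hmono' (fun g => A (g ∘ Sum.inl) ∧
          ¬ A (Function.update (g ∘ Sum.inl) i (g (Sum.inr ()))))
      (fun g => A (g ∘ Sum.inl) ∧ ¬ U (Finset.univ.image (g ∘ fun x : Fin j =>
        (Sum.inl (i.succAbove x) : Fin (j + 1) ⊕ Unit)))) (by
        rintro g - ⟨h3, h4⟩
        refine ⟨h3, fun h5 => h4 (hU _ _ ?_ h5)⟩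
        intro v hv
        obtain ⟨x, -, rfl⟩ := Finset.mem_image.1 hv
        refine Finset.mem_image.2 ⟨i.succAbove x, Finset.mem_univ _, ?_⟩
        rw [Function.update_of_ne (Fin.succAbove_ne i x)]
        rfl)
    linarith
  refine (Finset.sum_le_sum fun i _ => hterm i).trans ?_
  rw [Finset.sum_const, Finset.card_univ, Fintype.card_fin, nsmul_eq_mul]
  push_cast
  exact le_refl _

end Pool.Agent.KK.E.H8
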