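import Pool.Agent.KK.StmtsE

/-! Squad KK, row E_WIN (StmtE05): window density. -/

set_option autoImplicit false

namespace Pool.Agent.KK.E.H8

open Pool.Agent.KK Pool.Agent.KK.E

theorem bx_nonempty {V : Type} [Fintype V] [DecidableEq V] {X : Finset V} (hX : X.Nonempty)
    (hXc : (Xᶜ).Nonempty) {ι : Type} (l : ι → Bool) (o : ι → Option V) (i : ι) :
    (bx X l o i).Nonempty := by
  unfold bx
  rcases ho : o i with _ | v
  · simp only [Option.elim]
    unfold sd
    cases l i
    · simpa using hXc
    · simpa using hX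
  · simp only [Option.elim]
    exact Finset.singleton_nonempty v

theorem e_win (hE02 : StmtE02) : StmtE05 := by
  classical
  intro V _ _ ι _ _ H X M l o w a b hX hXc hM ha hb
  let e1 := Finset.equivFinOfCardEq ha
  let e2 := Finset.equivFinOfCardEq hb
  let φ : Fin a ⊕ Fin b → ι := Sum.elim (fun j => (e1.symm j : ι)) (fun j => (e2.symm j : ι))
  have h1 : ∀ j, (e1.symm j : ι) ∈ w ∧ o (e1.symm j : ι) = none ∧ l (e1.symm j : ι) = true :=
    fun j => Finset.mem_filter.1 (e1.symm j).2
  have h2 : ∀ j, (e2.symm j : ι) ∈ w ∧ o (e2.symm j : ι) = none ∧ l (e2.symm j : ι) = false :=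
    fun j => Finset.mem_filter.1 (e2.symm j).2
  have hφ : Function.Injective φ := by
    intro x y hxy
    rcases x with x | x <;> rcases y with y | y
    · have : e1.symm x = e1.symm y := Subtype.ext hxy
      rw [e1.symm.injective this]
    · exfalso
      have h3 := (h1 x).2.2
      have h4 := (h2 y).2.2
      have h5 : (e1.symm x : ι) = (e2.symm y : ι) := hxy
      rw [h5, h4] at h3
      exact Bool.noConfusion h3
    · exfalso
      have h3 := (h2 x).2.2
      have h4 := (h1 y).2.2
      have h5 : (e2.symm x : ι) = (e1.symm y : ι) := hxy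
      rw [h5, h4] at h3
      exact Bool.noConfusion h3
    · have : e2.symm x = e2.symm y := Subtype.ext hxy
      rw [e2.symm.injective this]
  have hc : bx X l o ∘ φ = lets X a b := by
    funext x
    rcases x with x | x
    · change (o (e1.symm x : ι)).elim (sd X (l (e1.symm x : ι))) (fun v => {v}) = X
      rw [(h1 x).2.1, (h1 x).2.2]
      rfl
    · change (o (e2.symm x : ι)).elim (sd X (l (e2.symm x : ι))) (fun v => {v}) = Xᶜ
      rw [(h2 x).2.1, (h2 x).2.2]
      rfl
  have h3 := hE02 V ι (Fin a ⊕ Fin b) (bx X l o) φ (bx_nonempty hX hXc l o) hφ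
    (fun g => M ∪ Finset.univ.image g ∈ H)
  rw [hc] at h3
  unfold D
  rw [← h3]
  have key : ∀ f : ι → V, (∀ i, f i ∈ bx X l o i) →
      w.image f = M ∪ Finset.univ.image (f ∘ φ) := by
    intro f hf
    have hf1 : ∀ i v, o i = some v → f i = v := by
      intro i v hi
      have := hf i
      unfold bx at this
      rw [hi] at this
      exact Finset.mem_singleton.1 this
    ext v
    rw [Finset.mem_union, Finset.mem_image, Finset.mem_image]
    constructor
    · rintro ⟨i, hi, rfl⟩
      rcases ho : o i with _ | u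
      · right
        cases hl : l i
        · have hm : i ∈ w.filter fun i => o i = none ∧ l i = false :=
            Finset.mem_filter.2 ⟨hi, ho, hl⟩
          refine ⟨Sum.inr (e2 ⟨i, hm⟩), Finset.mem_univ _, ?_⟩
          change f (e2.symm (e2 ⟨i, hm⟩) : ι) = f i
          rw [e2.symm_apply_apply]
        · have hm : i ∈ w.filter fun i => o i = none ∧ l i = true :=
            Finset.mem_filter.2 ⟨hi, ho, hl⟩
          refine ⟨Sum.inl (e1 ⟨i, hm⟩), Finset.mem_univ _, ?_⟩
          change f (e1.symm (e1 ⟨i, hm⟩) : ι) = f i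
          rw [e1.symm_apply_apply]
      · left
        rw [hf1 i u ho]
        exact (hM u).2 ⟨i, hi, ho⟩
    · rintro (hv | ⟨x, -, rfl⟩)
      · obtain ⟨i, hi, ho⟩ := (hM v).1 hv
        exact ⟨i, hi, hf1 i v ho⟩
      · rcases x with x | x
        · exact ⟨_, (h1 x).1, rfl⟩
        · exact ⟨_, (h2 x).1, rfl⟩
  unfold dens
  have hset : {f : ι → V | (∀ i, f i ∈ bx X l o i) ∧ w.image f ∈ H} =
      {f : ι → V | (∀ i, f i ∈ bx X l o i) ∧ M ∪ Finset.univ.image (f ∘ φ) ∈ H} := by
    ext f
    constructor
    · rintro ⟨hf, h⟩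
      exact ⟨hf, key f hf ▸ h⟩
    · rintro ⟨hf, h⟩
      refine ⟨hf, ?_⟩
      rw [key f hf]
      exact h
  rw [hset]

end Pool.Agent.KK.E.H8
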